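import Pool.Agent.H55.FFM.TP

/-!
# Row INQ: the number of zeros of `J`
-/

open Pool.Agent.H55.FFM

namespace Pool.Agent.H38.FFM

section basics

variable {k F S : Type} [Field k] [Field F] [Algebra k F] {v : S → F → ℤ}

lemma inq_one (hv : Vs k v) (s : S) : v s 1 = 0 := by
  have := hv.mul s 1 1 one_ne_zero one_ne_zero
  rw [mul_one] at this
  linarith

lemma inq_prod (hv : Vs k v) (s : S) (f : ℕ → F) (hf : ∀ i, f i ≠ 0) (n : ℕ) :
    v s (∏ i ∈ Finset.range n, f i) = ∑ i ∈ Finset.range n, v s (f i) := by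
  induction n with
  | zero => simp [inq_one hv s]
  | succ n ih =>
    rw [Finset.prod_range_succ, Finset.sum_range_succ,
      hv.mul s _ _ (Finset.prod_ne_zero_iff.2 fun i _ => hf i) (hf n), ih]

lemma inq_gauss (m : ℕ) : 2 * ∑ j ∈ Finset.range m, (j : ℤ) = m * ((m : ℤ) - 1) := by
  induction m with
  | zero => simp
  | succ m ih =>
    rw [Finset.sum_range_succ, mul_add, ih]
    push_cast
    ring

/-- the Gram determinant after a change of the basis with coefficients in `k` -/
lemma inq_gram (t : F →+* F) (ht : ∀ x : k, t (algebraMap k F x) = algebraMap k F x)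
    (hadd : ∀ a b : F, trh t (a + b) = trh t a + trh t b)
    (hmul : ∀ c a : F, trh t (t c * a) = c * trh t a) (M : ℕ) (b : Fin M → F)
    (P : Matrix (Fin M) (Fin M) k) :
    (Matrix.of fun i j => trh t ((∑ a, P a i • b a) * (∑ a, P a j • b a))).det =
      algebraMap k F (P.det ^ 2) * (Matrix.of fun i j => trh t (b i * b j)).det := by
  set G : Matrix (Fin M) (Fin M) F := Matrix.of fun i j => trh t (b i * b j) with hG
  set Q : Matrix (Fin M) (Fin M) F := P.map (algebraMap k F) with hQ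
  have hsum : ∀ (ι : Type) (s : Finset ι) (f : ι → F),
      trh t (∑ i ∈ s, f i) = ∑ i ∈ s, trh t (f i) := by
    intro ι s f
    exact map_sum (AddMonoidHom.mk' (trh t) hadd) f s
  have h : (Matrix.of fun i j => trh t ((∑ a, P a i • b a) * (∑ a, P a j • b a))) =
      Q.transpose * G * Q := by
    ext i j
    rw [Matrix.of_apply, Finset.sum_mul_sum, hsum, Matrix.mul_apply]
    simp only [Matrix.mul_apply, Finset.sum_mul]
    rw [Finset.sum_comm]
    apply Finset.sum_congr rfl
    intro c _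
    rw [hsum]
    apply Finset.sum_congr rfl
    intro a _
    rw [Algebra.smul_def, Algebra.smul_def, hG, hQ, Matrix.transpose_apply, Matrix.of_apply,
      Matrix.map_apply, Matrix.map_apply]
    rw [show algebraMap k F (P c i) * b c * (algebraMap k F (P a j) * b a) =
      t (algebraMap k F (P c i) * algebraMap k F (P a j)) * (b c * b a) by
        rw [map_mul, ht, ht]; ring, hmul]
    ring
  rw [h, Matrix.det_mul, Matrix.det_mul, Matrix.det_transpose]
  have h2 : Q.det = algebraMap k F P.det := by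
    rw [hQ]; exact ((algebraMap k F).map_det P).symm
  rw [h2, map_pow]
  ring

end basics

theorem pf_INQ (hRIE : T_RIE) (hPRM : T_PRM) (hCSZ : T_CSZ) (hIND : T_IND) (hGRM : T_GRM)
    (hTLN : T_TLN) (hTRC : T_TRC) (hDVL : T_DVL) (hJNT : T_JNT) (hFLG : T_FLG) : T_INQ := by
  intro k F _ _ _ _ _ R S _ v τ E J hC hPD hR hE hE2 hJ hJ0 hq
  classical
  have hv : Vs k v := hPD.toVs
  set T : F →+* F := (τ : F →+* F) with hT
  obtain ⟨σ, hσ⟩ := hPRM k F R S v τ E hC hPD hR hE (by omega)
  have hσ' : ∀ (s : S) (a : F), a ≠ 0 → v s (T a) = E * v (σ s) a := hσ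
  have : CharZero F := charZero_of_injective_algebraMap (algebraMap k F).injective
  have hTR : ∀ r ∈ R.toSubring, T r ∈ R.toSubring := fun r hr => hR r hr
  have hjnt := hJNT F T R.toSubring J hJ hJ0 hTR (by omega) hq
  -- iterates
  have hTn : ∀ (n : ℕ) (s : S) (a : F), a ≠ 0 →
      v s ((T ^ n) a) = ((E ^ n : ℕ) : ℤ) * v ((σ ^ n) s) a := by
    intro n
    induction n with
    | zero => intro s a _; simp
    | succ n ih =>
      intro s a ha
      have h1 : (T ^ (n + 1)) a = (T ^ n) (T a) := by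
        rw [pow_succ]; rfl
      have h2 : (σ ^ (n + 1)) s = σ ((σ ^ n) s) := by
        rw [pow_succ']; rfl
      have h3 : T a ≠ 0 := by
        rw [ne_eq, map_eq_zero]; exact ha
      rw [h1, ih s _ h3, hσ' _ a ha, h2]
      push_cast
      ring
  have hTk : ∀ (n : ℕ) (x : k), (T ^ n) (algebraMap k F x) = algebraMap k F x := by
    intro n
    induction n with
    | zero => intro x; simp
    | succ n ih =>
      intro x
      have h1 : (T ^ (n + 1)) (algebraMap k F x) = (T ^ n) (T (algebraMap k F x)) := by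
        rw [pow_succ]; rfl
      rw [h1, show T (algebraMap k F x) = algebraMap k F x from τ.commutes x, ih]
  have hTnR : ∀ (n : ℕ), ∀ r ∈ R, (T ^ n) r ∈ R := by
    intro n
    induction n with
    | zero => intro r hr; simpa using hr
    | succ n ih =>
      intro r hr
      have h1 : (T ^ (n + 1)) r = (T ^ n) (T r) := by rw [pow_succ]; rfl
      rw [h1]
      exact ih _ (hR r hr)
  obtain ⟨⟨s₀⟩, -⟩ := hCSZ k F R S v hC hPD
  obtain ⟨c, hc⟩ := hRIE k F R S v hC hPD s₀
  choose β hβR hβ0 hβ1 hβ2 using hc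
  -- the main inequality
  have main : ∀ n : ℕ, 1 ≤ n → (-∑ s, v s J) * ∑ i ∈ Finset.range n, (E : ℤ) ^ i ≤
      2 * c + (2 - (Fintype.card S : ℤ)) * ((E : ℤ) ^ n - 1) := by
    intro n hn
    set M : ℕ := E ^ n with hM
    have hM1 : 1 ≤ M := Nat.one_le_pow _ _ (by omega)
    set t : F →+* F := T ^ n with ht
    have hdt : deh t = M := by rw [(hjnt n).1, hE]
    have hvt : ∀ (s : S) (a : F), a ≠ 0 → v s (t a) = (M : ℤ) * v ((σ ^ n) s) a := hTn n
    set Jn : F := ∏ i ∈ Finset.range n, (T ^ i) J with hJn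
    have hTJ : ∀ i : ℕ, (T ^ i) J ≠ 0 := fun i => by
      rw [ne_eq, map_eq_zero]; exact hJ0
    have hJn0 : Jn ≠ 0 := Finset.prod_ne_zero_iff.2 fun i _ => hTJ i
    have hJnR : Jn ∈ R := prod_mem fun i _ => hTnR i J hJ
    have htrR : ∀ q ∈ R, trh t (q / Jn) ∈ R := fun q hq => (hjnt n).2 q hq
    have htrR2 : ∀ q ∈ R, trh t q ∈ R := by
      intro q hq
      have := htrR (q * Jn) (mul_mem hq hJnR)
      rwa [mul_div_assoc, div_self hJn0, mul_one] at this
    set b : Fin M → F := fun j => β (c + j) (Nat.le_add_right _ _) with hb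
    have hb0 : ∀ j, b j ≠ 0 := fun j => hβ0 _ _
    have hbR : ∀ j, b j ∈ R := fun j => hβR _ _
    have hbv : ∀ j : Fin M, v s₀ (b j) = -((c : ℤ) + (j : ℕ)) := by
      intro j; rw [hb]; simp only; rw [hβ1]; push_cast; rfl
    have hbv2 : ∀ (s : S), s ≠ s₀ → ∀ j, 0 ≤ v s (b j) := fun s hs j => hβ2 _ _ s hs
    have hBas : Bas t b := by
      apply hIND k F S v hv t M s₀ ((σ ^ n) s₀) hdt hM1 (hvt s₀) b hb0
      intro i j hij
      rw [hbv, hbv] at hij
      have h1 : -((c : ℤ) + (i : ℕ)) - -((c : ℤ) + (j : ℕ)) = (j : ℕ) - (i : ℕ) := by ring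
      rw [h1] at hij
      have hi := i.2
      have hj := j.2
      have h2 : ((j : ℕ) : ℤ) - (i : ℕ) = 0 := by
        apply Int.eq_zero_of_abs_lt_dvd hij
        rw [abs_lt]
        constructor <;> omega
      apply Fin.ext
      omega
    set G : Matrix (Fin M) (Fin M) F := Matrix.of fun i j => trh t (b i * b j) with hG
    set H : Matrix (Fin M) (Fin M) F := Matrix.of fun i j => trh t (b i * b j / Jn) with hH
    obtain ⟨hd0, hgr⟩ := hGRM F t M b hBas hM1
    rw [← hG] at hd0
    have hgr1 : G.det = nmh t Jn * H.det := hgr Jn hJn0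
    have hh0 : H.det ≠ 0 := by
      intro h; rw [h, mul_zero] at hgr1; exact hd0 hgr1
    have hn0 : nmh t Jn ≠ 0 := by
      intro h; rw [h, zero_mul] at hgr1; exact hd0 hgr1
    have hhR : H.det ∈ R := by
      rw [Matrix.det_apply]
      apply sum_mem
      intro p _
      have : (∏ i, H (p i) i) ∈ R := prod_mem fun i _ => htrR _ (mul_mem (hbR _) (hbR _))
      rcases Int.units_eq_one_or (Equiv.Perm.sign p) with h | h
      · rw [h, one_smul]; exact this
      · rw [h, Units.neg_smul, one_smul]; exact neg_mem this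
    -- valuations
    have hval : ∀ s, v ((σ ^ n) s) G.det = v s Jn + v ((σ ^ n) s) H.det := by
      intro s
      rw [hgr1, hv.mul _ _ _ hn0 hh0, (hTRC k F S v hv t M s ((σ ^ n) s) hdt hM1 (hvt s) Jn hJn0).2]
    have hsum1 : ∑ s, v ((σ ^ n) s) G.det = ∑ s, v s Jn + ∑ s, v s H.det := by
      rw [← Equiv.sum_comp (σ ^ n) (fun s => v s H.det), ← Finset.sum_add_distrib]
      exact Finset.sum_congr rfl fun s _ => hval s
    have hsum2 : ∑ s, v s H.det ≤ 0 := by
      have h1 := (hPD.len ⟨H.det, hhR⟩ (fun h => hh0 (congrArg Subtype.val h))).2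
      have h2 : (0 : ℤ) ≤ (Module.finrank k (R ⧸ Ideal.span {(⟨H.det, hhR⟩ : R)}) : ℤ) :=
        Int.natCast_nonneg _
      rw [h1] at h2
      simpa using h2
    -- lower bounds
    have hMz : (0 : ℤ) < M := by exact_mod_cast hM1
    have hgauss : 2 * ∑ j : Fin M, ((j : ℕ) : ℤ) = M * ((M : ℤ) - 1) := by
      rw [Fin.sum_univ_eq_sum_range (fun j => (j : ℤ)) M]
      exact inq_gauss M
    have hlow0 : -(2 * (c : ℤ)) - (M - 1) ≤ v ((σ ^ n) s₀) G.det := by
      have h1 := hDVL k F S v hv t M s₀ ((σ ^ n) s₀) hdt hM1 (hvt s₀) M b hb0 hd0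
      rw [Finset.sum_congr rfl (fun j _ => hbv j), Finset.sum_neg_distrib,
        Finset.sum_add_distrib] at h1
      simp only [Finset.sum_const, Finset.card_univ, Fintype.card_fin, nsmul_eq_mul] at h1
      have h2 : (M : ℤ) * (-(2 * (c : ℤ)) - (M - 1)) ≤ M * v ((σ ^ n) s₀) G.det := by
        calc (M : ℤ) * (-(2 * (c : ℤ)) - (M - 1)) =
            2 * -((M : ℤ) * c + ∑ j : Fin M, ((j : ℕ) : ℤ)) := by linarith
          _ ≤ _ := h1
      exact le_of_mul_le_mul_left h2 hMz
    have hli : LinearIndependent k b := by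
      rw [Fintype.linearIndependent_iff]
      intro g hg i
      have h1 : (0 : F) = ∑ i, t (algebraMap k F (g i)) * b i := by
        rw [← hg]
        apply Finset.sum_congr rfl
        intro i _
        rw [hTk, Algebra.smul_def]
      have h2 : (0 : F) = ∑ i, t ((fun _ => 0 : Fin M → F) i) * b i := by simp
      obtain ⟨x, -, hx⟩ := hBas 0
      have h3 := (hx _ h1).trans (hx _ h2).symm
      have h4 := congrFun h3 i
      simpa using h4
    have hlow : ∀ s, s ≠ s₀ → (M : ℤ) - 1 ≤ v ((σ ^ n) s) G.det := by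
      intro s hs
      obtain ⟨P, hP0, hP⟩ := hFLG k F S v hv s M b hli (hbv2 s hs)
      obtain ⟨t1, t2, -, -, -⟩ := hTLN F t (by omega)
      have hgm := inq_gram t (hTk n) t1 t2 M b P
      have hP1 : algebraMap k F (P.det ^ 2) ≠ 0 := by
        rw [ne_eq, map_eq_zero]; exact pow_ne_zero _ hP0
      have h1 := hDVL k F S v hv t M s ((σ ^ n) s) hdt hM1 (hvt s) M
        (fun j => ∑ i, P i j • b i) (fun j => (hP j).1) (by
          rw [hgm]; exact mul_ne_zero hP1 hd0)
      rw [hgm, hv.mul _ _ _ hP1 hd0, hv.cst _ _ (pow_ne_zero _ hP0), zero_add] at h1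
      have h2 : ∑ j : Fin M, ((j : ℕ) : ℤ) ≤ ∑ j : Fin M, v s (∑ i, P i j • b i) :=
        Finset.sum_le_sum fun j _ => (hP j).2
      have h3 : (M : ℤ) * (M - 1) ≤ M * v ((σ ^ n) s) G.det := by
        rw [← hgauss]; linarith
      exact le_of_mul_le_mul_left h3 hMz
    have hsum3 : -(2 * (c : ℤ)) + ((Fintype.card S : ℤ) - 2) * (M - 1) ≤
        ∑ s, v ((σ ^ n) s) G.det := by
      rw [← Finset.add_sum_erase _ _ (Finset.mem_univ s₀)]
      have h1 : (((Finset.univ.erase s₀).card : ℕ) : ℤ) * (M - 1) ≤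
          ∑ s ∈ Finset.univ.erase s₀, v ((σ ^ n) s) G.det := by
        rw [← nsmul_eq_mul]
        apply Finset.card_nsmul_le_sum
        intro s hs
        exact hlow s (Finset.ne_of_mem_erase hs)
      rw [Finset.card_erase_of_mem (Finset.mem_univ s₀), Finset.card_univ,
        Nat.cast_sub (Fintype.card_pos_iff.2 ⟨s₀⟩), Nat.cast_one] at h1
      nlinarith
    -- the valuation of Jn
    have hJv : ∑ s, v s Jn = (∑ s, v s J) * ∑ i ∈ Finset.range n, (E : ℤ) ^ i := by
      have h1 : ∀ s, v s Jn = ∑ i ∈ Finset.range n, (E : ℤ) ^ i * v ((σ ^ i) s) J := by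
        intro s
        rw [hJn, inq_prod hv s _ hTJ]
        apply Finset.sum_congr rfl
        intro i _
        rw [hTn i s J hJ0]
        push_cast
        rfl
      simp only [h1]
      rw [Finset.sum_comm, Finset.mul_sum]
      apply Finset.sum_congr rfl
      intro i _
      rw [← Finset.mul_sum, Equiv.sum_comp (σ ^ i) (fun s => v s J)]
      ring
    have hMc : (M : ℤ) = (E : ℤ) ^ n := by rw [hM]; push_cast; rfl
    rw [← hMc]
    have h1 : (-∑ s, v s J) * ∑ i ∈ Finset.range n, (E : ℤ) ^ i = -∑ s, v s Jn := by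
      rw [hJv]; ring
    rw [h1]
    linarith
  -- conclusion
  by_contra hcon
  rw [not_le] at hcon
  set lam : ℤ := -∑ s, v s J with hlam
  set C : ℤ := 2 - (Fintype.card S : ℤ) with hCd
  set n : ℕ := 2 * c * (E - 1) + 1 with hn
  have h1 := main n (by omega)
  have hgs := geom_sum_mul (E : ℤ) n
  have hE1 : (1 : ℤ) ≤ (E : ℤ) - 1 := by omega
  have hpow : (n : ℤ) ≤ (E : ℤ) ^ n - 1 := by
    have h2 : n < E ^ n := Nat.lt_pow_self (by omega)
    have h3 : ((n : ℕ) : ℤ) < (E : ℤ) ^ n := by exact_mod_cast h2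
    linarith
  have h4 : lam * ((E : ℤ) ^ n - 1) ≤ (2 * c + C * ((E : ℤ) ^ n - 1)) * ((E : ℤ) - 1) := by
    rw [← hgs, ← mul_assoc]
    have := mul_le_mul_of_nonneg_right h1 (show (0 : ℤ) ≤ (E : ℤ) - 1 by omega)
    rw [← hgs] at this
    exact this
  have h5 : (C * ((E : ℤ) - 1) + 1) * ((E : ℤ) ^ n - 1) ≤ lam * ((E : ℤ) ^ n - 1) :=
    mul_le_mul_of_nonneg_right hcon (by linarith [Int.natCast_nonneg n])
  have h6 : (n : ℤ) = 2 * c * ((E : ℤ) - 1) + 1 := by
    rw [hn]; push_cast [Nat.cast_sub (show 1 ≤ E by omega)]; ring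
  nlinarith

end Pool.Agent.H38.FFM
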