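import Pool.Agent.H55.FFM.TP

/-!
# Row LNN: comparison of the norms over `k[l]` and over `k[1/l]`
-/

open Pool.Agent.H55.FFM Polynomial
open scoped nonZeroDivisors

namespace Pool.Agent.H38.FFM

/-- the norm to `k(l)` is the value at `l` of the norm to `k[X]` -/
lemma lnn_one {k F R : Type} [Field k] [Field F] [CommRing R] [IsDomain R] [Algebra k F]
    [Algebra R F] [IsFractionRing R F] [Algebra k[X] R] [Module.Finite k[X] R] (l : F)
    (hl : Transcendental k l)
    (h : ∀ p : k[X], algebraMap R F (algebraMap k[X] R p) = aeval l p)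
    (K₀ : IntermediateField k F) (hlK : l ∈ K₀)
    (hK : ∀ x ∈ K₀, ∃ r s : k[X], x = aeval l r / aeval l s) (r : R) :
    ((Algebra.norm K₀ (algebraMap R F r) : K₀) : F) = aeval l (Algebra.norm k[X] r) ∧
      (r ≠ 0 → Algebra.norm k[X] r ≠ 0) := by
  let alg1 : Algebra k[X] K₀ := (aeval (⟨l, hlK⟩ : K₀) : k[X] →ₐ[k] K₀).toRingHom.toAlgebra
  let alg2 : Algebra k[X] F := (aeval l : k[X] →ₐ[k] F).toRingHom.toAlgebra
  have e1 : ∀ p : k[X], algebraMap k[X] K₀ p = aeval (⟨l, hlK⟩ : K₀) p := fun p => rfl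
  have e2 : ∀ p : k[X], algebraMap k[X] F p = aeval l p := fun p => rfl
  have e3 : ∀ p : k[X], algebraMap K₀ F (aeval (⟨l, hlK⟩ : K₀) p) = aeval l p := by
    intro p
    rw [← aeval_algebraMap_apply]
    rfl
  have : IsScalarTower k[X] K₀ F := IsScalarTower.of_algebraMap_eq fun p => by
    rw [e1, e3, e2]
  have : IsScalarTower k[X] R F := IsScalarTower.of_algebraMap_eq fun p => by
    rw [h, e2]
  have hinj : Function.Injective (aeval l : k[X] →ₐ[k] F) := transcendental_iff_injective.1 hl
  have hinjR : Function.Injective (algebraMap k[X] R) := by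
    intro p q hpq
    apply hinj
    rw [← h, ← h, hpq]
  have hinjK : Function.Injective (algebraMap k[X] K₀) := by
    intro p q hpq
    apply hinj
    rw [← e3, ← e3, ← e1, ← e1, hpq]
  have : FaithfulSMul k[X] R := (faithfulSMul_iff_algebraMap_injective _ _).2 hinjR
  have : FaithfulSMul k[X] K₀ := (faithfulSMul_iff_algebraMap_injective _ _).2 hinjK
  have : Algebra.IsIntegral k[X] R := inferInstance
  have : Algebra.IsAlgebraic k[X] R := inferInstance
  have : IsFractionRing k[X] K₀ := by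
    apply IsFractionRing.of_field
    rintro ⟨z, hz⟩
    obtain ⟨r, s, hrs⟩ := hK z hz
    refine ⟨r, s, ?_⟩
    apply Subtype.ext
    have : ((algebraMap k[X] K₀ r / algebraMap k[X] K₀ s : K₀) : F) =
        algebraMap K₀ F (algebraMap k[X] K₀ r) / algebraMap K₀ F (algebraMap k[X] K₀ s) :=
      map_div₀ (algebraMap K₀ F) _ _
    rw [this, e1, e1, e3, e3]
    exact hrs
  have : Module.IsTorsionFree k[X] R := inferInstance
  have : Module.Free k[X] R := inferInstance
  constructor
  · have h1 := Algebra.norm_localization k[X] (Rₘ := K₀) (Sₘ := F) k[X]⁰ r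
    rw [h1]
    exact e3 _
  · intro hr
    rw [ne_eq, Algebra.norm_eq_zero_iff]
    exact hr

theorem pf_LNN : T_LNN := by
  intro k F R B _ _ _ _ _ _ _ _ _ _ _ _ _ _ _ l hl hR hB r b c hr hb hc hrbc
  have hl0 : l ≠ 0 := by
    rintro rfl
    exact hl isAlgebraic_zero
  have hli : Transcendental k l⁻¹ := by
    intro h
    apply hl
    have := h.inv
    rwa [inv_inv] at this
  set K₀ : IntermediateField k F := IntermediateField.adjoin k {l} with hK₀
  have hlK : l ∈ K₀ := IntermediateField.mem_adjoin_simple_self k l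
  have hlK' : l⁻¹ ∈ K₀ := inv_mem hlK
  have hK1 : ∀ x ∈ K₀, ∃ r s : k[X], x = aeval l r / aeval l s := fun x hx =>
    (IntermediateField.mem_adjoin_simple_iff k x).1 hx
  have hK2 : ∀ x ∈ K₀, ∃ r s : k[X], x = aeval l⁻¹ r / aeval l⁻¹ s := by
    intro x hx
    apply (IntermediateField.mem_adjoin_simple_iff k x).1
    have h1 : K₀ ≤ IntermediateField.adjoin k {l⁻¹} := by
      rw [hK₀, IntermediateField.adjoin_le_iff]
      rintro y rfl
      have := inv_mem (IntermediateField.mem_adjoin_simple_self k y⁻¹)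
      rwa [inv_inv] at this
    exact h1 hx
  obtain ⟨n1, m1⟩ := lnn_one l hl hR K₀ hlK hK1 r
  obtain ⟨n2, m2⟩ := lnn_one l⁻¹ hli hB K₀ hlK' hK2 b
  obtain ⟨n3, m3⟩ := lnn_one l⁻¹ hli hB K₀ hlK' hK2 c
  set p := Algebra.norm k[X] r with hp
  set q := Algebra.norm k[X] b with hq
  set s := Algebra.norm k[X] c with hs
  have hp0 := m1 hr
  have hq0 := m2 hb
  have hs0 := m3 hc
  have key : (aeval l p : F) * aeval l⁻¹ s = aeval l⁻¹ q := by
    rw [← n1, ← n3, ← n2, ← hrbc, map_mul]
    rfl
  have hrev : (aeval l p : F) * (l⁻¹) ^ p.natDegree = aeval l⁻¹ p.reverse := by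
    let : Invertible l := invertibleOfNonzero hl0
    have h1 := eval₂_reverse_mul_pow (algebraMap k F) l p
    rw [invOf_eq_inv] at h1
    rw [aeval_def, aeval_def, ← h1, mul_assoc, ← mul_pow, mul_inv_cancel₀ hl0, one_pow, mul_one]
  have hpoly : p.reverse * s = X ^ p.natDegree * q := by
    apply transcendental_iff_injective.1 hli
    rw [map_mul, map_mul, ← hrev, ← key, map_pow, aeval_X]
    ring
  have hrev0 : p.reverse ≠ 0 := by rwa [ne_eq, reverse_eq_zero]
  have hroot : p.reverse.rootMultiplicity 0 = 0 := by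
    apply rootMultiplicity_eq_zero
    rw [IsRoot, ← coeff_zero_eq_eval_zero, coeff_zero_reverse, leadingCoeff_eq_zero]
    exact hp0
  have hX : (X ^ p.natDegree : k[X]).rootMultiplicity 0 = p.natDegree := by
    have := rootMultiplicity_X_sub_C_pow (0 : k) p.natDegree
    rwa [C_0, sub_zero] at this
  have h1 := congrArg (rootMultiplicity 0) hpoly
  rw [rootMultiplicity_mul (mul_ne_zero hrev0 hs0), rootMultiplicity_mul
    (mul_ne_zero (pow_ne_zero _ X_ne_zero) hq0), hroot, hX, zero_add] at h1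
  exact h1.symm

end Pool.Agent.H38.FFM
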